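import Pool.Agent.X308.R.Mld

/-!
# Semicontinuity of minimal log discrepancies up to a sublinear error suffices
-/

set_option autoImplicit false

namespace Pool.Agent.Results.MP_f23696_ag.AlmostSemicontinuous

open Pool.Agent.X308.R

/-- **Theorem.** Minimal log discrepancies of log canonical pairs are lower semicontinuous
functions of the closed point if and only if, in a sequence of dimensions `d t → ∞`, they are
lower semicontinuous up to an error `f t = o (d t)`; and they are at most the dimension if and only
if, in a sequence of dimensions, they are at most `d t + f t`. -/
theorem result {C : Type} (L : PairClass C)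
    (h0 : ∀ X, L.dim X = 0 → @LowerSemicontinuous _ _ (L.top X) _ (L.mld X)) :
    (L.Semicontinuous ↔ L.AlmostSemicontinuous) ∧ (L.Bounded ↔ L.AlmostBounded) :=
  ⟨L.semicontinuous_iff h0, L.bounded_iff⟩

end Pool.Agent.Results.MP_f23696_ag.AlmostSemicontinuous
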